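import Pool.Agent.N287.WF.Stm

/-! Commuting flows exist; smooth action of the plane (parts M2 and ACT of project WF). -/

open scoped Topology ContDiff Manifold
open Set Filter Bundle Pool.Agent.Helper186 Pool.Agent.H826R2 Pool.Agent.N287.WF

noncomputable section

namespace Pool.Agent.N490.WF

universe u v w

section

variable {E : Type u} [NormedAddCommGroup E] [NormedSpace ℝ E] [FiniteDimensional ℝ E]
  {M : Type v} [TopologicalSpace M] [ChartedSpace E M] [IsManifold 𝓘(ℝ, E) ∞ M]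
  {W : Type w} [NormedAddCommGroup W] [InnerProductSpace ℝ W] [FiniteDimensional ℝ W]

/-- the Reeb field is smooth -/
lemma smoothR {β : (x : M) → TangentSpace 𝓘(ℝ, E) x →L[ℝ] ℝ}
    {R : (x : M) → TangentSpace 𝓘(ℝ, E) x} (c : Wein.CD β R) :
    ContMDiff 𝓘(ℝ, E) 𝓘(ℝ, E).tangent ∞
      (fun x => (⟨x, R x⟩ : TangentBundle 𝓘(ℝ, E) M)) := by
  have h1 : ∀ x, R x = c.X (fun _ => (1 : ℝ)) x := by
    intro x
    apply c.X_unique
    intro v
    have h2 : dForm 𝓘(ℝ, E) (fun _ : M => (1 : ℝ)) x v = 0 := by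
      unfold dForm
      rw [mfderiv_const]
      rfl
    rw [Wein.HB_apply, c.reeb.unit, c.reeb.kernel, h2]
    ring
  have h3 := c.smooth_X (f := fun _ : M => (1 : ℝ)) contMDiff_const
  have h4 : (fun x => (⟨x, R x⟩ : TangentBundle 𝓘(ℝ, E) M)) =
      fun x => (⟨x, c.X (fun _ => (1 : ℝ)) x⟩ : TangentBundle 𝓘(ℝ, E) M) := by
    funext x
    rw [← h1 x]
  rw [h4]
  exact h3

/-- a smooth map which sends the field `V` to itself commutes with the flow of `V` -/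
lemma comm_flow [T2Space M] {V : (x : M) → TangentSpace 𝓘(ℝ, E) x}
    (hV : ContMDiff 𝓘(ℝ, E) 𝓘(ℝ, E).tangent ∞
      (fun x => (⟨x, V x⟩ : TangentBundle 𝓘(ℝ, E) M))) {ψ : M → ℝ → M}
    (h0 : ∀ x, ψ x 0 = x) (hint : ∀ x, IsMIntegralCurve (I := 𝓘(ℝ, E)) (ψ x) V) {g : M → M}
    (hg : ContMDiff 𝓘(ℝ, E) 𝓘(ℝ, E) ∞ g)
    (hgV : ∀ x, (mfderiv 𝓘(ℝ, E) 𝓘(ℝ, E) g x (V x) : E) = V (g x)) (x : M) (s : ℝ) :
    g (ψ x s) = ψ (g x) s := by
  have : IsManifold 𝓘(ℝ, E) 1 M := IsManifold.of_le (n := ∞) (by simp)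
  have h1 : IsMIntegralCurve (I := 𝓘(ℝ, E)) (fun t => g (ψ x t)) V := by
    intro t
    have h2 := HasMFDerivAt.comp t (g := g) (f := ψ x)
      (hg.mdifferentiableAt (by simp)).hasMFDerivAt (hint x t)
    refine h2.congr_mfderiv ?_
    refine ContinuousLinearMap.ext fun (r : ℝ) => ?_
    have h3 := hgV (ψ x t)
    show (mfderiv 𝓘(ℝ, E) 𝓘(ℝ, E) g (ψ x t)) ((r • V (ψ x t) : E)) = r • V (g (ψ x t))
    have h4 : (mfderiv 𝓘(ℝ, E) 𝓘(ℝ, E) g (ψ x t)) ((r • V (ψ x t) : E)) =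
      (r • (mfderiv 𝓘(ℝ, E) 𝓘(ℝ, E) g (ψ x t) (V (ψ x t)) : E) : E) :=
      map_smul (mfderiv 𝓘(ℝ, E) 𝓘(ℝ, E) g (ψ x t)) _ _
    rw [h4]
    exact congrArg (fun w : E => r • w) h3
  have h2 : (fun t => g (ψ x t)) = ψ (g x) := by
    refine isMIntegralCurve_Ioo_eq_of_contMDiff_boundaryless (t₀ := 0)
      (hV.of_le (by simp)) h1 (hint _) ?_
    simp [h0]
  exact congrFun h2 s

/-- a function whose derivative vanishes on the field is constant along the flow -/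
lemma const_flow {V : (x : M) → TangentSpace 𝓘(ℝ, E) x} {ψ : M → ℝ → M}
    (h0 : ∀ x, ψ x 0 = x) (hint : ∀ x, IsMIntegralCurve (I := 𝓘(ℝ, E)) (ψ x) V) {f : M → W}
    (hf : ContMDiff 𝓘(ℝ, E) 𝓘(ℝ, W) ∞ f) (hfV : ∀ x, DW f x (V x) = 0) (x : M) (s : ℝ) :
    f (ψ x s) = f x := by
  have hder : ∀ t, HasDerivAt (fun t => f (ψ x t)) 0 t := by
    intro t
    have h1 := HasMFDerivAt.comp t (g := f) (f := ψ x)
      (hf.mdifferentiableAt (by simp)).hasMFDerivAt (hint x t)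
    have h2 : HasFDerivAt (fun s => f (ψ x s)) (show ℝ →L[ℝ] W from
        (mfderiv 𝓘(ℝ, E) 𝓘(ℝ, W) f (ψ x t)).comp ((1 : ℝ →L[ℝ] ℝ).smulRight (V (ψ x t)))) t :=
      hasMFDerivAt_iff_hasFDerivAt.1 h1
    have h3 := h2.hasDerivAt
    refine h3.congr_deriv ?_
    show (mfderiv 𝓘(ℝ, E) 𝓘(ℝ, W) f (ψ x t)) ((1:ℝ) • V (ψ x t)) = _
    rw [one_smul]
    exact hfV (ψ x t)
  have h5 := is_const_of_deriv_eq_zero (fun s => (hder s).differentiableAt)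
    (fun s => (hder s).deriv) s 0
  simp only [h0] at h5
  exact h5

end

/-- **M2**: the commuting flows exist. -/
theorem flow : FlowStm.{u, v, w} := by
  intro E _ _ _ M _ _ _ _ _ W _ _ _ β R f Y a h hinv
  have : IsManifold 𝓘(ℝ, E) 1 M := IsManifold.of_le (n := ∞) (by simp)
  have hR := smoothR h.cd
  have e1 := fun x : M => Wein.complete_of_compact hR isCompact_univ
    (fun y hy => absurd (mem_univ y) hy) x
  have e2 := fun x : M => Wein.complete_of_compact h.smoothY isCompact_univ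
    (fun y hy => absurd (mem_univ y) hy) x
  choose φ φ0 φint using e1
  choose ψ ψ0 ψint using e2
  refine ⟨φ, ψ, φ0, φint, ψ0, ψint, fun x s t => ?_⟩
  have hs : ContMDiff 𝓘(ℝ, E) 𝓘(ℝ, E) ∞ (fun y => φ y t) :=
    (contMDiff_flow hR φ0 φint).comp (contMDiff_id.prodMk contMDiff_const)
  exact comm_flow h.smoothY ψ0 ψint hs (fun y => hinv φ φ0 φint y t) x s

/-- **M2'**: the action of the plane. -/
theorem actProp : ActStm.{u, v, w} := by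
  intro E _ _ _ M _ _ _ _ W _ _ _ β R f Y a h φ ψ F
  have : IsManifold 𝓘(ℝ, E) 1 M := IsManifold.of_le (n := ∞) (by simp)
  have hR := smoothR h.cd
  have s1 := contMDiff_flow hR F.φ0 F.φint
  have s2 := contMDiff_flow h.smoothY F.ψ0 F.ψint
  have a1 := flow_add hR F.φ0 F.φint
  have a2 := flow_add h.smoothY F.ψ0 F.ψint
  have k1 : ∀ x, DW f x (R x) = 0 := fun x => (h.ker x (R x)).2 ⟨1, 0, by simp⟩
  have k2 : ∀ x, DW f x (Y x) = 0 := fun x => (h.ker x (Y x)).2 ⟨0, 1, by simp⟩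
  have c1 := const_flow F.φ0 F.φint h.smoothf k1
  have c2 := const_flow F.ψ0 F.ψint h.smoothf k2
  refine ⟨?_, ?_, ?_, ?_⟩
  · have t1 : ContMDiff (𝓘(ℝ, ℝ × ℝ).prod 𝓘(ℝ, E)) 𝓘(ℝ, ℝ) ∞
        (fun p : (ℝ × ℝ) × M => p.1.1) :=
      (contDiff_fst (𝕜 := ℝ) (E := ℝ) (F := ℝ) (n := ∞)).contMDiff.comp contMDiff_fst
    have t2 : ContMDiff (𝓘(ℝ, ℝ × ℝ).prod 𝓘(ℝ, E)) 𝓘(ℝ, ℝ) ∞
        (fun p : (ℝ × ℝ) × M => p.1.2) :=
      (contDiff_snd (𝕜 := ℝ) (E := ℝ) (F := ℝ) (n := ∞)).contMDiff.comp contMDiff_fst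
    have t3 : ContMDiff (𝓘(ℝ, ℝ × ℝ).prod 𝓘(ℝ, E)) 𝓘(ℝ, E) ∞
        (fun p : (ℝ × ℝ) × M => ψ p.2 p.1.2) :=
      s2.comp (contMDiff_snd.prodMk t2)
    exact s1.comp (t3.prodMk t1)
  · intro x
    unfold act
    simp [F.φ0, F.ψ0]
  · intro γ γ' x
    unfold act
    rw [Prod.fst_add, Prod.snd_add, add_comm γ.1 γ'.1, add_comm γ.2 γ'.2, a1, a2,
      ← F.comm (ψ x γ'.2) γ.2 γ'.1]
  · intro γ x
    unfold act
    rw [c1, c2]

end Pool.Agent.N490.WF
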